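import Pool.Agent.Helper22.LIL.Defs

/-!
# LIL block LA: the lower estimate almost everywhere (helper30)

The set of the `α` for which the lower estimate holds only finitely often is a countable union of
sets contained in bad sets of measure tending to zero.
-/

open MeasureTheory Filter Set
open scoped Real Topology

namespace Pool.Agent.Helper22.LIL

open Pool.Agent.Helper22.GC Pool.Agent.Helper53.OM

noncomputable section

/-- LA, from LO. -/
theorem lower_ae_of (hlo : ∃ c : ℝ, 0 < c ∧ ∀ (β : ℝ) (lam : ℕ → ℝ), 1 < β → Lac β lam →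
    ∀ σ : ℝ, (σ = 1 ∨ σ = -1) → ∀ a b : ℝ, 0 < a → a < b →
    Tendsto (fun j : ℕ => volume {α ∈ Icc a b | ∀ k : ℕ, 4 ^ j ≤ k → k < 2 * 4 ^ j →
      σ * TK (Nk k) (α * lam k) < c * Phi k}) atTop (𝓝 0)) :
    ∃ c : ℝ, 0 < c ∧ ∀ (β : ℝ) (lam : ℕ → ℝ), 1 < β → Lac β lam →
    ∀ σ : ℝ, (σ = 1 ∨ σ = -1) → ∀ a b : ℝ, 0 < a → a < b →
    ∀ᵐ α ∂(volume.restrict (Icc a b)), ∃ᶠ k : ℕ in atTop,
      c * Phi k ≤ σ * TK (Nk k) (α * lam k) := by
  obtain ⟨c, hc, h⟩ := hlo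
  refine ⟨c, hc, fun β lam hβ hl σ hσ a b ha hab => ?_⟩
  have hlim := h β lam hβ hl σ hσ a b ha hab
  rw [ae_restrict_iff' measurableSet_Icc, ae_iff]
  -- the exceptional set is a countable union
  have hsub : {α | ¬ (α ∈ Icc a b → ∃ᶠ k : ℕ in atTop, c * Phi k ≤ σ * TK (Nk k) (α * lam k))} ⊆
      ⋃ n : ℕ, {α ∈ Icc a b | ∀ k : ℕ, n ≤ k → σ * TK (Nk k) (α * lam k) < c * Phi k} := by
    intro α hα
    rw [Set.mem_ofPred_eq, Classical.not_imp, Filter.not_frequently, eventually_atTop] at hα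
    obtain ⟨h1, n, hn⟩ := hα
    exact mem_iUnion.2 ⟨n, h1, fun k hk => not_le.1 (hn k hk)⟩
  refine measure_mono_null hsub (measure_iUnion_null fun n => ?_)
  have hle : ∀ᶠ j : ℕ in atTop,
      volume {α ∈ Icc a b | ∀ k : ℕ, n ≤ k → σ * TK (Nk k) (α * lam k) < c * Phi k} ≤
      volume {α ∈ Icc a b | ∀ k : ℕ, 4 ^ j ≤ k → k < 2 * 4 ^ j →
        σ * TK (Nk k) (α * lam k) < c * Phi k} := by
    filter_upwards [eventually_ge_atTop n] with j hj
    refine measure_mono fun α hα => ⟨hα.1, fun k hk _ => hα.2 k ?_⟩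
    have h2 : j < 4 ^ j := Nat.lt_pow_self (by norm_num)
    omega
  exact le_antisymm (ge_of_tendsto hlim hle) bot_le

end

end Pool.Agent.Helper22.LIL
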